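import Mathlib
import Pool.Agent.Q192.AluthgeB

set_option autoImplicit false

namespace Pool.Agent.Results.MP_a9e7a9_an.FixedPoints

open Pool.Agent.Q192.AluthgeB

universe u

/-- For every complex Hilbert space `H`, every operator `T` with canonical polar decomposition
`T = V |T|` and every `l` in `[0, 1/2]` (even in `[0, 1]`), `T` is a fixed point of the mean
`l`-Aluthge transform if and only if `T` is quasi-normal. -/
theorem result (H : Type u) [NormedAddCommGroup H] [InnerProductSpace ℂ H] [CompleteSpace H]
    (T V : H →L[ℂ] H) (hV : IsPolar T V) (l : ℝ) (hl : 0 ≤ l) (hl1 : l ≤ 1) :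
    meanAluthge T V l = T ↔ QuasiNormal T :=
  fixed_iff hV l hl hl1

end Pool.Agent.Results.MP_a9e7a9_an.FixedPoints
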